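import Pool.Agent.H47.ST.Targets

namespace Pool.Agent.H50.STK

open Finset Pool.Agent.H47.ST

theorem tops_cons (B : List ℕ) (A : List (List ℕ)) : tops (B :: A) = max (top 0 B) (tops A) := by
  simp [tops]

theorem tops_append (A C : List (List ℕ)) : tops (A ++ C) = max (tops A) (tops C) := by
  induction A with
  | nil => simp [tops]
  | cons B A ih => rw [List.cons_append, tops_cons, tops_cons, ih, max_assoc]

theorem mir_cons (B : List ℕ) (A : List (List ℕ)) : mir (B :: A) = mir A ++ [B.reverse] := by
  simp [mir]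

theorem tops_mir (h1 : T_TOP) (A : List (List ℕ)) : tops (mir A) = tops A := by
  induction A with
  | nil => simp [mir]
  | cons B A ih =>
    rw [mir_cons, tops_append, tops_cons, tops_cons, ih, h1.2.2.1 B, max_comm]
    simp [tops]

theorem pops_append (h1 : T_TOP) (e : ℕ) (C : List (List ℕ)) : ∀ (A : List (List ℕ)) (h : ℕ),
    pops e h (A ++ C) = pops e h A ∪ pops e (max h (tops A)) C := by
  intro A
  induction A with
  | nil => intro h; simp [pops, tops]
  | cons B A ih =>
    intro h
    have e1 : max (top h B) (tops A) = max h (tops (B :: A)) := by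
      rw [tops_cons, h1.1 h B, max_assoc]
    rw [List.cons_append]
    show vis e h B ∪ pops e (top h B) (A ++ C) = (vis e h B ∪ pops e (top h B) A) ∪ _
    rw [ih, e1, Finset.union_assoc]

theorem le_vis (e : ℕ) : ∀ (B : List ℕ) (h c : ℕ), c ∈ vis e h B → h ≤ c := by
  intro B
  induction B with
  | nil => intro h c hc; simp [vis] at hc
  | cons r B ih =>
    intro h c hc
    rw [vis] at hc
    by_cases hr : h ≤ r
    · rw [if_pos hr, Finset.mem_union] at hc
      rcases hc with hc | hc
      · by_cases h2 : r % 2 = e ∧ r + 1 < top 0 B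
        · rw [if_pos h2, Finset.mem_singleton] at hc
          omega
        · rw [if_neg h2] at hc
          simp at hc
      · have := ih _ _ hc
        omega
    · rw [if_neg hr] at hc
      exact ih _ _ hc

/-- the largest element of the first part is visible -/
theorem mem_vis (h1 : T_TOP) (e c : ℕ) (Z : List ℕ) (hc : c % 2 = e) (hZ : c + 1 < top 0 Z) :
    ∀ (Y : List ℕ) (h : ℕ), h ≤ c → top 0 Y = c + 1 → c ∈ vis e h (Y ++ Z) := by
  intro Y
  induction Y with
  | nil => intro h _ h2; simp [top] at h2
  | cons r Y ih =>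
    intro h hh h2
    have h3 : max (r + 1) (top 0 Y) = c + 1 := by
      rw [← h2]
      show _ = top (max 0 (r + 1)) Y
      rw [h1.1 (max 0 (r + 1)) Y]
      simp
    rw [List.cons_append, vis]
    by_cases hr : h ≤ r
    · rw [if_pos hr, Finset.mem_union]
      by_cases hrc : r = c
      · left
        subst hrc
        have h4 : r + 1 < top 0 (Y ++ Z) := by
          rw [h1.2.1 Y Z]
          exact lt_of_lt_of_le hZ (le_max_right _ _)
        rw [if_pos ⟨hc, h4⟩]
        simp
      · right
        have h5 : r < c := by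
          have : r + 1 ≤ c + 1 := by
            rw [← h3]; exact le_max_left _ _
          omega
        apply ih (r + 1) (by omega)
        have h6 : top 0 Y ≤ c + 1 := by
          rw [← h3]; exact le_max_right _ _
        rcases le_total (r + 1) (top 0 Y) with h7 | h7
        · rw [max_eq_right h7] at h3; exact h3
        · rw [max_eq_left h7] at h3; omega
    · rw [if_neg hr]
      apply ih h hh
      rcases le_total (r + 1) (top 0 Y) with h7 | h7
      · rw [max_eq_right h7] at h3; exact h3
      · rw [max_eq_left h7] at h3; omega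

theorem QQ_tail {e : ℕ} {B : List ℕ} {A : List (List ℕ)} (h : QQ e (B :: A)) : QQ e A := by
  intro A1 A2 hA hne
  exact h (B :: A1) A2 (by rw [hA]; rfl) hne

theorem LI_one (h1 : T_TOP) (e m0 : ℕ) (B : List ℕ) (A : List (List ℕ)) (s : ℕ → ℝ) (he : e < 2)
    (hQ : QQ e (B :: A)) (hM : B.length ≤ m0) (hs : ∀ c, 0 ≤ s c) (Ls : List (List ℕ)) :
    ((((List.range (B.length + 1)).map fun p => ((Ls, B.take p, B.drop p, A) : Pl))).map
      fun q => if home q.2.1 q.2.2.1 q.2.2.2 ∧ 1 ≤ top 0 q.2.2.1 ∧
      top 0 q.2.2.1 % 2 = e then s (top 0 q.2.2.1 - 1) else 0).sum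
    ≤ m0 * ∑ c ∈ vis (1 - e) (tops A) B.reverse, s c := by
  have h0 : 0 ≤ ∑ c ∈ vis (1 - e) (tops A) B.reverse, s c := Finset.sum_nonneg fun c _ => hs c
  have key : ∀ p : ℕ, (if home (B.take p) (B.drop p) A ∧ 1 ≤ top 0 (B.drop p) ∧
      top 0 (B.drop p) % 2 = e then s (top 0 (B.drop p) - 1) else 0) ≤
      ∑ c ∈ vis (1 - e) (tops A) B.reverse, s c := by
    intro p
    by_cases hp : home (B.take p) (B.drop p) A ∧ 1 ≤ top 0 (B.drop p) ∧ top 0 (B.drop p) % 2 = e
    · rw [if_pos hp]
      obtain ⟨⟨ha, hb⟩, hc, hd⟩ := hp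
      have hmem : top 0 (B.drop p) - 1 ∈ vis (1 - e) (tops A) B.reverse := by
        have hB : B.reverse = (B.drop p).reverse ++ (B.take p).reverse := by
          rw [← List.reverse_append, List.take_append_drop]
        rw [hB]
        apply mem_vis h1
        · omega
        · rw [h1.2.2.1]; omega
        · by_cases hA : A = []
          · subst hA
            simp [tops]
          · have := hQ [B] A rfl hA
            omega
        · rw [h1.2.2.1]; omega
      exact Finset.single_le_sum (f := s) (fun c _ => hs c) hmem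
    · rw [if_neg hp]
      exact h0
  rw [List.map_map]
  have e1 : (List.map ((fun q : Pl => if home q.2.1 q.2.2.1 q.2.2.2 ∧ 1 ≤ top 0 q.2.2.1 ∧
      top 0 q.2.2.1 % 2 = e then s (top 0 q.2.2.1 - 1) else 0) ∘
      fun p => ((Ls, B.take p, B.drop p, A) : Pl)) (List.range (B.length + 1))).sum =
      (List.map (fun p => if home (B.take p) (B.drop p) A ∧ 1 ≤ top 0 (B.drop p) ∧
      top 0 (B.drop p) % 2 = e then s (top 0 (B.drop p) - 1) else 0)
      (List.range (B.length + 1))).sum := rfl
  rw [e1, List.range_succ, List.map_append, List.sum_append]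
  have e2 : (List.map (fun p => if home (B.take p) (B.drop p) A ∧ 1 ≤ top 0 (B.drop p) ∧
      top 0 (B.drop p) % 2 = e then s (top 0 (B.drop p) - 1) else 0) [B.length]).sum = 0 := by
    simp [top]
  rw [e2, add_zero]
  calc (List.map (fun p => if home (B.take p) (B.drop p) A ∧ 1 ≤ top 0 (B.drop p) ∧
      top 0 (B.drop p) % 2 = e then s (top 0 (B.drop p) - 1) else 0)
      (List.range B.length)).sum
      ≤ (List.map (fun _ => ∑ c ∈ vis (1 - e) (tops A) B.reverse, s c)
        (List.range B.length)).sum := List.sum_le_sum fun p _ => key p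
    _ = B.length * ∑ c ∈ vis (1 - e) (tops A) B.reverse, s c := by
        rw [List.map_const', List.sum_replicate, List.length_range, nsmul_eq_mul]
    _ ≤ m0 * ∑ c ∈ vis (1 - e) (tops A) B.reverse, s c :=
        mul_le_mul_of_nonneg_right (by exact_mod_cast hM) h0

theorem LI_all (h1 : T_TOP) (h2 : T_PO) (e m0 : ℕ) (s : ℕ → ℝ) (he : e < 2) (hs : ∀ c, 0 ≤ s c) :
    ∀ (A : List (List ℕ)), QQ e A → okM m0 A → ∀ Ls : List (List ℕ),
    ((plc Ls A).map fun q => if home q.2.1 q.2.2.1 q.2.2.2 ∧ 1 ≤ top 0 q.2.2.1 ∧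
      top 0 q.2.2.1 % 2 = e then s (top 0 q.2.2.1 - 1) else 0).sum
    ≤ m0 * ∑ c ∈ pops (1 - e) 0 (mir A), s c := by
  intro A
  induction A with
  | nil =>
    intro _ _ Ls
    simp [plc, mir, pops]
  | cons B A ih =>
    intro hQ hM Ls
    have hA := ih (QQ_tail hQ) (fun B' hB' => hM B' (List.mem_cons_of_mem _ hB')) (Ls ++ [B])
    have hB := LI_one h1 e m0 B A s he hQ (hM B List.mem_cons_self) hs Ls
    have hd : Disjoint (pops (1 - e) 0 (mir A)) (vis (1 - e) (tops A) B.reverse) := by
      rw [Finset.disjoint_left]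
      intro c hc hc2
      have h3 := (h2 (1 - e) 0 (mir A)).2.2 c hc
      rw [tops_mir h1] at h3
      have h4 := le_vis _ _ _ _ hc2
      omega
    have hp : pops (1 - e) 0 (mir (B :: A)) = pops (1 - e) 0 (mir A) ∪
        vis (1 - e) (tops A) B.reverse := by
      rw [mir_cons, pops_append h1, tops_mir h1]
      simp [pops]
    rw [hp, Finset.sum_union hd, mul_add]
    rw [plc, List.map_append, List.sum_append]
    linarith

theorem pf_LI (h1 : T_TOP) (h2 : T_PO) : T_LI := by
  intro e m0 A s he hQ hM hs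
  exact LI_all h1 h2 e m0 s he hs A hQ hM []

end Pool.Agent.H50.STK
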