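import Pool.Agent.H47.ST.Targets

namespace Pool.Agent.H50.STK

open Finset Pool.Agent.H47.ST

theorem sa_tops_cons (B : List ℕ) (A : List (List ℕ)) :
    tops (B :: A) = max (top 0 B) (tops A) := by
  simp [tops]

theorem wt_pos (R : ℕ) (W U : ℝ) (e hl r hr : ℕ) (hW : 0 < W) (hU : 0 < U) :
    0 < wt R W U e hl r hr := by
  unfold wt
  have h1 : (0 : ℝ) < (if walker hl r hr then W else 1) := by
    by_cases h : walker hl r hr
    · rw [if_pos h]; exact hW
    · rw [if_neg h]; exact one_pos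
  have h2 : (0 : ℝ) < (if pend e hl r hr then U else 1) := by
    by_cases h : pend e hl r hr
    · rw [if_pos h]; exact hU
    · rw [if_neg h]; exact one_pos
  exact mul_pos (mul_pos (Real.exp_pos _) h1) h2

theorem phC_pos (R : ℕ) (W U : ℝ) (e : ℕ) (hW : 0 < W) (hU : 0 < U) (hr : ℕ) :
    ∀ (B : List ℕ) (hl : ℕ), 0 < phC R W U e hl B hr := by
  intro B
  induction B with
  | nil => intro hl; exact one_pos
  | cons r B ih =>
    intro hl
    rw [phC]
    exact mul_pos (wt_pos R W U e _ _ _ hW hU) (ih _)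

theorem PA_pos (R : ℕ) (W U : ℝ) (e : ℕ) (hW : 0 < W) (hU : 0 < U) (st : List (List ℕ)) :
    0 < PA R W U e st := by
  induction st with
  | nil => simp [PA]
  | cons B st ih =>
    have h1 : PA R W U e (B :: st) = phC R W U e 0 B 0 * PA R W U e st := by
      simp [PA]
    rw [h1]
    exact mul_pos (phC_pos R W U e hW hU 0 B 0) ih

theorem PHI_le {R : ℕ} {W U D κ : ℝ} {e : ℕ} {st st' : List (List ℕ)} (hW : 0 < W) (hU : 0 < U)
    (hD : 1 ≤ D) (h : PA R W U e st' ≤ κ * PA R W U e st) (ht : tsum st ≤ tsum st') :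
    PHI R W U D e st' ≤ PHI R W U D e st * κ := by
  have hD0 : 0 < D := lt_of_lt_of_le one_pos hD
  unfold PHI
  calc PA R W U e st' / D ^ tsum st' ≤ PA R W U e st' / D ^ tsum st :=
        div_le_div_of_nonneg_left (PA_pos R W U e hW hU st').le (pow_pos hD0 _)
          (pow_le_pow_right₀ hD ht)
    _ ≤ (κ * PA R W U e st) / D ^ tsum st := div_le_div_of_nonneg_right h (pow_pos hD0 _).le
    _ = PA R W U e st / D ^ tsum st * κ := by ring

theorem PHI_le' {R : ℕ} {W U D κ : ℝ} {e : ℕ} {st st' : List (List ℕ)} (hW : 0 < W) (hU : 0 < U)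
    (hD : 1 ≤ D) (h : PA R W U e st' ≤ κ * PA R W U e st) (ht : tsum st + 1 ≤ tsum st') :
    PHI R W U D e st' ≤ PHI R W U D e st * (κ / D) := by
  have hD0 : 0 < D := lt_of_lt_of_le one_pos hD
  unfold PHI
  calc PA R W U e st' / D ^ tsum st' ≤ PA R W U e st' / D ^ (tsum st + 1) :=
        div_le_div_of_nonneg_left (PA_pos R W U e hW hU st').le (pow_pos hD0 _)
          (pow_le_pow_right₀ hD ht)
    _ ≤ (κ * PA R W U e st) / D ^ (tsum st + 1) :=
        div_le_div_of_nonneg_right h (pow_pos hD0 _).le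
    _ = PA R W U e st / D ^ tsum st * (κ / D) := by
        rw [pow_succ]
        field_simp

theorem sum_four {α : Type*} (l : List α) (f a b n : α → ℝ) (P d : ℝ)
    (h : ∀ q ∈ l, f q ≤ P * (a q + b q + n q + d)) :
    (l.map f).sum ≤ P * ((l.map a).sum + (l.map b).sum + (l.map n).sum + l.length * d) := by
  induction l with
  | nil => simp
  | cons q l ih =>
    have h1 := h q List.mem_cons_self
    have h2 := ih (fun q hq => h q (List.mem_cons_of_mem _ hq))
    simp only [List.map_cons, List.sum_cons, List.length_cons]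
    push_cast
    nlinarith [h1, h2]

theorem pf_SA (h1 : T_TOP) (h2 : T_PLC) (h3 : T_GG) (h4 : T_GR) (h5 : T_GI) (h6 : T_RAI)
    (h7 : T_CAP) (h8 : T_LR) (h9 : T_LI) (h10 : T_LN) : T_SA := by
  intro R m0 e W U D A C hR hW hU hD he hQ hM
  classical
  have hW0 : 0 < W := by linarith
  have hU0 : 0 < U := by linarith
  have hD0 : 0 < D := by linarith
  have hR0 : (0 : ℝ) < R := by exact_mod_cast hR
  have hK : 0 < KK R W U := by
    unfold KK
    exact mul_pos (mul_pos (pow_pos hW0 5) (pow_pos hU0 3)) (Real.exp_pos _)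
  have hP : 0 < PHI R W U D e (A ++ C) := by
    unfold PHI
    exact div_pos (PA_pos R W U e hW0 hU0 _) (pow_pos hD0 _)
  -- the functions
  set s : ℕ → ℝ := fun c => U ^ 2 * Real.exp (((R : ℝ) - 1 - c) / R) with hs
  set s' : ℕ → ℝ := fun c => KK R W U /
    U ^ ((pops (1 - e) 0 (mir A) ∪ pops e 0 C).filter (fun c' => c < c')).card with hs'
  have hs0 : ∀ c, 0 ≤ s c := fun c => mul_nonneg (pow_nonneg hU0.le 2) (Real.exp_pos _).le
  have hs'0 : ∀ c, 0 ≤ s' c := fun c => div_nonneg hK.le (pow_pos hU0 _).le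
  let a : Pl → ℝ := fun q => if home q.2.1 q.2.2.1 q.2.2.2 ∧ 1 ≤ top 0 q.2.2.1 ∧
      top 0 q.2.2.1 % 2 = 1 - e ∧ top 0 q.2.2.1 ≤ R then
      s (top 0 q.2.2.1 - 1) / (Real.exp (2 * (zM (top 0 q.2.2.1 - 1) q.2.1 q.2.2.1 : ℝ) / R) *
        W ^ zK (top 0 q.2.2.1 - 1) q.2.1) else 0
  let b : Pl → ℝ := fun q => if home q.2.1 q.2.2.1 q.2.2.2 ∧ 1 ≤ top 0 q.2.2.1 ∧
      top 0 q.2.2.1 % 2 = e then s' (top 0 q.2.2.1 - 1) else 0
  let n : Pl → ℝ := fun q => KK R W U * (if home q.2.1 q.2.2.1 q.2.2.2 ∧ top 0 q.2.2.1 = 0 then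
    (1 : ℝ) else 0)
  have ha0 : ∀ q, 0 ≤ a q := by
    intro q
    dsimp only [a]
    split_ifs
    · exact div_nonneg (hs0 _) (mul_pos (Real.exp_pos _) (pow_pos hW0 _)).le
    · exact le_refl _
  have hb0 : ∀ q, 0 ≤ b q := by
    intro q
    dsimp only [b]
    split_ifs
    · exact hs'0 _
    · exact le_refl _
  have hn0 : ∀ q, 0 ≤ n q := by
    intro q
    apply mul_nonneg hK.le
    split_ifs
    · exact zero_le_one
    · exact le_refl _
  have hd0 : 0 ≤ KK R W U / D := div_nonneg hK.le hD0.le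
  have hsum0 : ∀ q, 0 ≤ PHI R W U D e (A ++ C) * (a q + b q + n q + KK R W U / D) := fun q =>
    mul_nonneg hP.le (add_nonneg (add_nonneg (add_nonneg (ha0 q) (hb0 q)) (hn0 q)) hd0)
  have key : ∀ q ∈ plc [] A, (if okR R (plq e (q.1, q.2.1, q.2.2.1, q.2.2.2 ++ C)) then
      PHI R W U D e (plq e (q.1, q.2.1, q.2.2.1, q.2.2.2 ++ C)) else 0) ≤
      PHI R W U D e (A ++ C) * (a q + b q + n q + KK R W U / D) := by
    rintro ⟨Ls, X, Y, Rs⟩ hq
    have hA : A = Ls ++ (X ++ Y) :: Rs := (h2 A _).1 hq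
    have hAC : A ++ C = Ls ++ (X ++ Y) :: (Rs ++ C) := by rw [hA]; simp
    by_cases hok : okR R (plq e (Ls, X, Y, Rs ++ C))
    swap
    · rw [if_neg hok]
      exact hsum0 _
    rw [if_pos hok]
    have hQ' : QQ e (Ls ++ (X ++ Y) :: Rs) := by rw [← hA]; exact hQ
    have hgg := h3 R W U e Ls X Y (Rs ++ C) hR hW.le hU.le he
    rw [← hAC] at hgg
    show PHI R W U D e (place e Ls X Y (Rs ++ C)) ≤ _
    by_cases hh : home X Y Rs
    swap
    · -- not home
      have h11 := h6 e Ls X Y Rs C he hQ' hh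
      rw [← hAC] at h11
      have h12 := PHI_le' hW0 hU0 hD hgg.1 h11
      refine h12.trans (mul_le_mul_of_nonneg_left ?_ hP.le)
      have := ha0 (Ls, X, Y, Rs)
      have := hb0 (Ls, X, Y, Rs)
      have := hn0 (Ls, X, Y, Rs)
      linarith
    by_cases ht0 : top 0 Y = 0
    · -- height zero
      have h12 := PHI_le hW0 hU0 hD hgg.1 hgg.2
      refine h12.trans (mul_le_mul_of_nonneg_left ?_ hP.le)
      have h13 := ha0 (Ls, X, Y, Rs)
      have h14 := hb0 (Ls, X, Y, Rs)
      have h15 : n (Ls, X, Y, Rs) = KK R W U := by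
        show KK R W U * (if home X Y Rs ∧ top 0 Y = 0 then (1 : ℝ) else 0) = _
        rw [if_pos ⟨hh, ht0⟩, mul_one]
      linarith
    have ht1 : 1 ≤ top 0 Y := by omega
    have htops : tops ((X ++ Y) :: Rs) = top 0 X := by
      rw [sa_tops_cons, h1.2.1 X Y]
      have := hh.1
      have := hh.2
      omega
    have hpar : top 0 X % 2 = 1 - e := by
      rw [← htops]
      exact hQ' Ls ((X ++ Y) :: Rs) rfl (by simp)
    by_cases hp : top 0 Y % 2 = e
    · -- irregular
      have h11 := h5 R W U e Ls X Y Rs C hR hW.le hU.le he hQ' hh ht1 hp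
      rw [← hAC, ← hA] at h11
      have hpow : 0 < U ^ ((pops (1 - e) 0 (mir A) ∪ pops e 0 C).filter
          (fun c => top 0 Y - 1 < c)).card := pow_pos hU0 _
      have h12 : PA R W U e (place e Ls X Y (Rs ++ C)) ≤ s' (top 0 Y - 1) *
          PA R W U e (A ++ C) := by
        have h13 : s' (top 0 Y - 1) = KK R W U / U ^ ((pops (1 - e) 0 (mir A) ∪
          pops e 0 C).filter (fun c => top 0 Y - 1 < c)).card := rfl
        rw [h13, div_mul_eq_mul_div, le_div_iff₀ hpow]
        exact h11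
      have h14 := PHI_le hW0 hU0 hD h12 hgg.2
      refine h14.trans (mul_le_mul_of_nonneg_left ?_ hP.le)
      have h13 := ha0 (Ls, X, Y, Rs)
      have h15 := hn0 (Ls, X, Y, Rs)
      have h16 : b (Ls, X, Y, Rs) = s' (top 0 Y - 1) := by
        show (if home X Y Rs ∧ 1 ≤ top 0 Y ∧ top 0 Y % 2 = e then s' (top 0 Y - 1) else 0) = _
        rw [if_pos ⟨hh, ht1, hp⟩]
      linarith
    · -- regular
      have hp1 : top 0 Y % 2 = 1 - e := by omega
      have hc1 : top 0 Y = (top 0 Y - 1) + 1 := by omega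
      have hc2 : (top 0 Y - 1) % 2 = e := by omega
      by_cases hRc : top 0 Y ≤ R
      swap
      · exact absurd hok (h7 R e (top 0 Y - 1) Ls X Y (Rs ++ C) he hc1 hc2 (by omega))
      have hc3 : (top 0 Y - 1) + 3 ≤ top 0 X := by
        have := hh.1
        omega
      have h11 := h4 R W U e (top 0 Y - 1) Ls X Y (Rs ++ C) hR hW.le hU.le he hc1 hc2 hc3
      rw [← hAC] at h11
      have hpos : 0 < Real.exp (2 * (zM (top 0 Y - 1) X Y : ℝ) / R) * W ^ zK (top 0 Y - 1) X :=
        mul_pos (Real.exp_pos _) (pow_pos hW0 _)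
      have h12 : PA R W U e (place e Ls X Y (Rs ++ C)) ≤ (s (top 0 Y - 1) /
          (Real.exp (2 * (zM (top 0 Y - 1) X Y : ℝ) / R) * W ^ zK (top 0 Y - 1) X)) *
          PA R W U e (A ++ C) := by
        rw [div_mul_eq_mul_div, le_div_iff₀ hpos, ← mul_assoc]
        exact h11
      have h14 := PHI_le hW0 hU0 hD h12 hgg.2
      refine h14.trans (mul_le_mul_of_nonneg_left ?_ hP.le)
      have h13 := hb0 (Ls, X, Y, Rs)
      have h15 := hn0 (Ls, X, Y, Rs)
      have h16 : a (Ls, X, Y, Rs) = s (top 0 Y - 1) /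
          (Real.exp (2 * (zM (top 0 Y - 1) X Y : ℝ) / R) * W ^ zK (top 0 Y - 1) X) := by
        show (if home X Y Rs ∧ 1 ≤ top 0 Y ∧ top 0 Y % 2 = 1 - e ∧ top 0 Y ≤ R then
          s (top 0 Y - 1) / (Real.exp (2 * (zM (top 0 Y - 1) X Y : ℝ) / R) *
          W ^ zK (top 0 Y - 1) X) else 0) = _
        rw [if_pos ⟨hh, ht1, hp1, hRc⟩]
      linarith
  have hsum := sum_four (plc [] A) _ a b n _ (KK R W U / D) key
  refine le_trans ?_ (hsum.trans (mul_le_mul_of_nonneg_left ?_ hP.le))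
  · apply le_of_eq
    apply congrArg
    apply List.map_congr_left
    intro q _
    by_cases hok : okR R (plq e (q.1, q.2.1, q.2.2.1, q.2.2.2 ++ C))
    · simp only [if_pos hok]
    · simp only [if_neg hok]
  · have hA1 := h8 R e W A s hR hW he hs0
    have hB1 := h9 e m0 A s' he hQ hM hs'0
    have hN1 := h10 A
    have hA2 : ((plc [] A).map a).sum ≤ U ^ 2 * (R / (2 * Real.exp 1) * (W / (W - 1))) *
          (∑ c ∈ (range R).filter (fun c => c % 2 = e), Real.exp (((R : ℝ) - 1 - c) / R)) := by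
      refine hA1.trans (le_of_eq ?_)
      have : (∑ c ∈ (range R).filter (fun c => c % 2 = e), s c) = U ^ 2 *
          ∑ c ∈ (range R).filter (fun c => c % 2 = e), Real.exp (((R : ℝ) - 1 - c) / R) := by
        rw [Finset.mul_sum]
      rw [this]
      ring
    have hB2 : ((plc [] A).map b).sum ≤ KK R W U * m0 * (∑ c ∈ pops (1 - e) 0 (mir A),
          1 / U ^ ((pops (1 - e) 0 (mir A) ∪ pops e 0 C).filter (fun c' => c < c')).card) := by
      refine hB1.trans (le_of_eq ?_)
      rw [mul_comm (KK R W U) (m0 : ℝ), mul_assoc]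
      rw [Finset.mul_sum (a := KK R W U)]
      apply congrArg
      apply Finset.sum_congr rfl
      intro c _
      show KK R W U / _ = KK R W U * (1 / _)
      rw [mul_one_div]
    have hN2 : ((plc [] A).map n).sum ≤ KK R W U := by
      have : ((plc [] A).map n).sum = KK R W U * ((plc [] A).map fun q =>
          if home q.2.1 q.2.2.1 q.2.2.2 ∧ top 0 q.2.2.1 = 0 then (1 : ℝ) else 0).sum := by
        rw [← List.sum_map_mul_left]
      rw [this]
      calc _ ≤ KK R W U * 1 := mul_le_mul_of_nonneg_left hN1 hK.le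
        _ = KK R W U := mul_one _
    have hL : ((plc [] A).length : ℝ) * (KK R W U / D) = KK R W U * (plc [] A).length / D := by
      ring
    rw [hL]
    linarith

end Pool.Agent.H50.STK
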